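import Pool.Agent.Y784.CP.A
import Pool.Agent.Z894.CP.Stm2

set_option autoImplicit false
set_option linter.unusedSectionVars false

/-! Project MB, part 5: the statement over `ℂ`, blocks and groups, prime powers -/

open MvPolynomial

namespace Pool.Agent.Y784.CP

open Pool.Agent.TH922.KC hiding Psi
open Pool.Agent.Z894.CP Pool.Agent.Z894.LX

lemma conv_prod {M : Type*} [CommMonoid M] {r : ℕ} (pr A : Fin r → Prop) [DecidablePred pr]
    [DecidablePred A] (hA : ∀ i, A i → pr i) (F : Fin r → M) :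
    ∏ i ∈ Finset.univ.filter A, F i =
      ∏ φ ∈ Finset.univ.filter (fun φ : {i // pr i} => A φ.1), F φ.1 := by
  have h : Finset.univ.filter A = (Finset.univ.filter (fun φ : {i // pr i} => A φ.1)).map
      (Function.Embedding.subtype _) := by
    ext i
    simp only [Finset.mem_filter, Finset.mem_univ, true_and, Finset.mem_map,
      Function.Embedding.coe_subtype, Subtype.exists, exists_and_left, exists_prop,
      exists_eq_right_right]
    exact ⟨fun hi => ⟨hi, hA i hi⟩, fun hi => hi.1⟩
  rw [h, Finset.prod_map]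
  rfl

lemma conv_sum {M : Type*} [AddCommMonoid M] {r : ℕ} (pr A : Fin r → Prop) [DecidablePred pr]
    [DecidablePred A] (hA : ∀ i, A i → pr i) (F : Fin r → M) :
    ∑ i ∈ Finset.univ.filter A, F i =
      ∑ φ ∈ Finset.univ.filter (fun φ : {i // pr i} => A φ.1), F φ.1 := by
  have h : Finset.univ.filter A = (Finset.univ.filter (fun φ : {i // pr i} => A φ.1)).map
      (Function.Embedding.subtype _) := by
    ext i
    simp only [Finset.mem_filter, Finset.mem_univ, true_and, Finset.mem_map,
      Function.Embedding.coe_subtype, Subtype.exists, exists_and_left, exists_prop,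
      exists_eq_right_right]
    exact ⟨fun hi => ⟨hi, hA i hi⟩, fun hi => hi.1⟩
  rw [h, Finset.sum_map]
  rfl

/-- the substitution of the linear forms `ZL` -/
noncomputable def sgZ {κ : Type} [Field κ] (ζ : κ) (n N r : ℕ) :
    Fin (N + 1) ⊕ Fin r → MvPolynomial (Fin (n + 1) ⊕ Fin r) κ :=
  Sum.elim (fun a => LF (ZL ζ n N) a) (fun i => X (Sum.inr i))

lemma sgZ_hom {κ : Type} [Field κ] (ζ : κ) {n N r : ℕ} (x : Fin (N + 1) ⊕ Fin r) :
    (sgZ ζ n N r x).IsHomogeneous 1 := by
  rcases x with j | i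
  · exact LF_hom _ _
  · exact isHomogeneous_X _ _

lemma sgZ_map {k κ : Type} [Field k] [Field κ] (φ1 : k →+* κ) (ζ : k) {n N r : ℕ}
    (x : Fin (N + 1) ⊕ Fin r) :
    MvPolynomial.map φ1 (sgZ ζ n N r x) = sgZ (φ1 ζ) n N r x := by
  rcases x with j | i
  · change MvPolynomial.map φ1 (LF (ZL ζ n N) j) = LF (ZL (φ1 ζ) n N) j
    simp only [LF, ZL, map_sum, map_mul, map_C, map_X, map_pow]
  · exact map_X _ _

lemma aeval_sgZ_map {k κ : Type} [Field k] [Field κ] (φ1 : k →+* κ) (ζ : k) {n N r : ℕ}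
    (p : MvPolynomial (Fin (N + 1) ⊕ Fin r) k) :
    MvPolynomial.map φ1 (aeval (sgZ ζ n N r) p) =
      aeval (sgZ (φ1 ζ) n N r) (MvPolynomial.map φ1 p) := by
  have h : (MvPolynomial.map φ1).comp (aeval (sgZ ζ n N r) :
      MvPolynomial (Fin (N + 1) ⊕ Fin r) k →ₐ[k] _).toRingHom
      = (aeval (sgZ (φ1 ζ) n N r) : MvPolynomial (Fin (N + 1) ⊕ Fin r) κ →ₐ[κ] _).toRingHom.comp
        (MvPolynomial.map φ1) := by
    apply MvPolynomial.ringHom_ext
    · intro c
      change MvPolynomial.map φ1 (aeval (sgZ ζ n N r) (C c))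
        = aeval (sgZ (φ1 ζ) n N r) (MvPolynomial.map φ1 (C c))
      rw [map_C, aeval_C, aeval_C, algebraMap_eq, algebraMap_eq, map_C]
    · intro x
      change MvPolynomial.map φ1 (aeval (sgZ ζ n N r) (X x))
        = aeval (sgZ (φ1 ζ) n N r) (MvPolynomial.map φ1 (X x))
      rw [map_X, aeval_X, aeval_X, sgZ_map]
  exact DFunLike.congr_fun h p

theorem mmain_holds (h1 : MK1) (h6 : PAlg) : MMain := by
  classical
  intro n r hn d
  obtain ⟨K1, hcount, hroots, hindep⟩ := exists_countable_field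
  set σ := (Σ i : Fin r, {μ : Fin (n + r + 1) →₀ ℕ // μ.degree = d i}) with hσ
  have hcp : Countable (MvPolynomial σ K1) := by
    rw [← Cardinal.mk_le_aleph0_iff]
    refine MvPolynomial.cardinalMk_le_max.trans ?_
    simp only [max_le_iff, le_refl, and_true]
    exact ⟨Cardinal.mk_le_aleph0_iff.mpr hcount, Cardinal.mk_le_aleph0_iff.mpr inferInstance⟩
  have hne : Nonempty {p : MvPolynomial σ K1 // p ≠ 0} := ⟨⟨1, one_ne_zero⟩⟩
  obtain ⟨en, hen⟩ := exists_surjective_nat {p : MvPolynomial σ K1 // p ≠ 0}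
  refine ⟨fun j => MvPolynomial.map K1.subtype (en j).1, fun j => ?_, ?_⟩
  · have h1 := (en j).2
    intro h
    exact h1 ((map_eq_zero_iff _ (MvPolynomial.map_injective _ K1.subtype.injective)).mp h)
  intro f hfh hbad I hI hIp hdim hfI p s m B a ix g hp hs hBm hnm hnB hab hixi hg
  haveI : Fact p.Prime := ⟨hp⟩
  have hind : AlgebraicIndependent K1 (fun x : σ => coeff x.2.1 (f x.1)) := by
    rw [algebraicIndependent_iff]
    intro p hp
    by_contra hp0
    obtain ⟨l, hl⟩ := hen ⟨p, hp0⟩
    apply hbad l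
    change MvPolynomial.eval _ (MvPolynomial.map K1.subtype (en l).1) = 0
    rw [hl, MvPolynomial.eval_map]
    exact hp
  have hQ0 : 0 < p ^ s := pow_pos hp.pos _
  have hQ2 : 2 ≤ p ^ s := hp.two_le.trans (Nat.le_self_pow hs p)
  -- the divisors
  choose qq hqq1 hqq2 using fun c : Fin m => exists_factor
    (Finset.univ.filter (fun i => g i = some c)) d (p ^ s) (hg c)
  let q : Fin r → ℕ := fun i => (g i).elim 1 (fun c => qq c i)
  have hqs : ∀ i c, g i = some c → q i = qq c i := by
    intro i c h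
    simp only [q, h, Option.elim_some]
  have hqn : ∀ i, g i = none → q i = 1 := by
    intro i h
    simp only [q, h, Option.elim_none]
  have hqd : ∀ i, q i ∣ d i := by
    intro i
    rcases hgi : g i with _ | c
    · rw [hqn i hgi]; exact one_dvd _
    · rw [hqs i c hgi]
      exact hqq1 c i (by simp [hgi])
  have hqprod : ∀ c, ∏ i ∈ Finset.univ.filter (fun i => g i = some c), q i = p ^ s := by
    intro c
    rw [← hqq2 c]
    refine Finset.prod_congr rfl fun i hi => ?_
    simp only [Finset.mem_filter, Finset.mem_univ, true_and] at hi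
    exact hqs i c hi
  have hqdvd : ∀ i, q i ∣ p ^ s := by
    intro i
    rcases hgi : g i with _ | c
    · rw [hqn i hgi]; exact one_dvd _
    · rw [← hqprod c]
      exact Finset.dvd_prod_of_mem q (by simp [hgi])
  have hqpos : ∀ i, 0 < q i := fun i => Nat.pos_of_dvd_of_pos (hqdvd i) hQ0
  have hqp : ∀ i, q i ≠ 1 → p ∣ q i := by
    intro i h
    obtain ⟨t, ht, hqt⟩ := (Nat.dvd_prime_pow hp).mp (hqdvd i)
    rw [hqt]
    apply dvd_pow_self
    rintro rfl
    rw [pow_zero] at hqt
    exact h hqt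
  clear_value q
  let g' : Fin r → Option (Fin m) := fun i => if q i = 1 then none else g i
  have hg'c : ∀ i c, g' i = some c ↔ q i ≠ 1 ∧ g i = some c := by
    intro i c
    by_cases h : q i = 1
    · simp [g', h]
    · simp [g', h]
  have hg'1 : ∀ i, q i ≠ 1 → ∃ c, g' i = some c := by
    intro i h
    rcases hgi : g i with _ | c
    · exact absurd (hqn i hgi) h
    · exact ⟨c, (hg'c i c).mpr ⟨h, hgi⟩⟩
  have hg'a : ∀ i i', g' i = g' i' → q i' ≠ 1 → q i ≠ 1 := by
    intro i i' h h1
    obtain ⟨c, hc⟩ := hg'1 i' h1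
    rw [hc] at h
    exact ((hg'c i c).mp h).1
  clear_value g'
  have hg'prod : ∀ c, ∏ i ∈ Finset.univ.filter (fun i => g' i = some c), q i = p ^ s := by
    intro c
    rw [← hqprod c]
    apply Finset.prod_subset
    · intro i hi
      simp only [Finset.mem_filter, Finset.mem_univ, true_and] at hi ⊢
      exact ((hg'c i c).mp hi).2
    · intro i hi hi'
      simp only [Finset.mem_filter, Finset.mem_univ, true_and] at hi hi'
      by_contra hne
      exact hi' ((hg'c i c).mpr ⟨hne, hi⟩)
  have hact : ∀ c, (Finset.univ.filter (fun i => g' i = some c)).Nonempty := by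
    intro c
    by_contra h
    rw [Finset.not_nonempty_iff_eq_empty] at h
    have := hg'prod c
    rw [h, Finset.prod_empty] at this
    omega
  let fst0 : Fin m → Fin r := fun c =>
    (Finset.univ.filter (fun i => g' i = some c)).min' (hact c)
  have hfst : ∀ c, g' (fst0 c) = some c := by
    intro c
    have := (Finset.univ.filter (fun i => g' i = some c)).min'_mem (hact c)
    simpa only [Finset.mem_filter, Finset.mem_univ, true_and] using this
  have hfstle : ∀ c i, g' i = some c → fst0 c ≤ i := by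
    intro c i hi
    exact Finset.min'_le _ _ (by simpa using hi)
  clear_value fst0
  have hfstS : ∀ c, ¬ (Sg g' (fst0 c)).Nonempty := by
    rintro c ⟨i, hi⟩
    simp only [Sg, Finset.mem_filter, Finset.mem_univ, true_and] at hi
    have := hfstle c i (hi.1.trans (hfst c))
    exact absurd hi.2 (not_lt.mpr this)
  have hSne : ∀ i c, g' i = some c → i ≠ fst0 c → (Sg g' i).Nonempty := by
    intro i c hi hne
    refine ⟨fst0 c, ?_⟩
    simp only [Sg, Finset.mem_filter, Finset.mem_univ, true_and]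
    exact ⟨(hfst c).trans hi.symm, lt_of_le_of_ne (hfstle c i hi) (Ne.symm hne)⟩
  let top : Fin m → Fin r := fun c => (Finset.univ.filter (fun i => g' i = some c)).max' (hact c)
  have htop : ∀ c, g' (top c) = some c := by
    intro c
    have := (Finset.univ.filter (fun i => g' i = some c)).max'_mem (hact c)
    simpa only [Finset.mem_filter, Finset.mem_univ, true_and] using this
  have htople : ∀ c i, g' i = some c → i ≤ top c := by
    intro c i hi
    exact Finset.le_max' _ _ (by simpa using hi)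
  clear_value top
  have htopflt : ∀ c, Finset.univ.filter (fun i' => g' i' = g' (top c) ∧ i' ≤ top c) =
      Finset.univ.filter (fun i => g' i = some c) := by
    intro c
    ext i'
    simp only [Finset.mem_filter, Finset.mem_univ, true_and, htop c]
    exact ⟨fun h => h.1, fun h => ⟨h, htople c i' h⟩⟩
  have htopD : ∀ c, Dg g' q (top c) = p ^ s := by
    intro c
    rw [Dg, htopflt, hg'prod]
  -- the active indices
  let Φ := {i : Fin r // q i ≠ 1}
  choose grp hgrp using fun φ : Φ => hg'1 φ.1 φ.2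
  have hgrpc : ∀ (φ : Φ) c, grp φ = c ↔ g' φ.1 = some c := by
    intro φ c
    rw [hgrp φ, Option.some_inj]
  let fst : Fin m → Φ := fun c => ⟨fst0 c, ((hg'c _ _).mp (hfst c)).1⟩
  have hfstg : ∀ c, grp (fst c) = c := fun c => (hgrpc _ _).mpr (hfst c)
  let e : Fin r → ℕ := ee g' q
  have he : ∀ φ : Φ, p - 1 ≤ e φ.1 := by
    intro φ
    simp only [e, ee]
    have := Nat.le_of_dvd (hqpos φ.1) (hqp φ.1 φ.2)
    split_ifs <;> omega
  let π : Φ → ℕ := fun φ => pp g' q φ.1
  have hπp : ∀ φ : Φ, φ ≠ fst (grp φ) → p ∣ π φ := by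
    intro φ hφ
    have h0 : φ.1 ≠ fst0 (grp φ) := fun h => hφ (Subtype.ext h)
    have h1 := hSne φ.1 (grp φ) (hgrp φ) h0
    simp only [π]
    rw [pp, dif_pos h1]
    have h2 := prev_mem g' h1
    have h3 : q ((Sg g' φ.1).max' h1) ≠ 1 := hg'a _ φ.1 h2.1 φ.2
    exact (hqp _ h3).trans (self_dvd g' q _)
  have hppf : ∀ c, pp g' q (fst0 c) = 1 := fun c => by rw [pp, dif_neg (hfstS c)]
  have hera : ∀ c, (Finset.univ.filter (fun i => g' i = some c)).erase (fst0 c) =
      Finset.univ.filter (fun i => g' i = some c ∧ i ≠ fst0 c) := by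
    intro c
    ext i
    simp only [Finset.mem_erase, Finset.mem_filter, Finset.mem_univ, true_and]
    tauto
  have hfilt : ∀ c, Finset.univ.filter (fun φ : Φ => g' φ.1 = some c ∧ φ.1 ≠ fst0 c) =
      Finset.univ.filter (fun φ : Φ => grp φ = c ∧ φ ≠ fst c) := by
    intro c
    apply Finset.filter_congr
    intro φ _
    rw [hgrpc, ne_eq, ne_eq, Subtype.ext_iff]
  have hdeg : ∀ c, e (fst c).1 + ∑ φ ∈ Finset.univ.filter (fun φ => grp φ = c ∧ φ ≠ fst c),
      π φ * e φ.1 = p ^ s := by
    intro c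
    have h1 := deg_sum g' q hqpos (top c)
    rw [htopD, htopflt, ← Finset.add_sum_erase _ _ (show fst0 c ∈
      Finset.univ.filter (fun i => g' i = some c) by simpa using hfst c), hera, hppf, one_mul,
      conv_sum (fun i => q i ≠ 1) (fun i => g' i = some c ∧ i ≠ fst0 c)
      (fun i hi => ((hg'c i c).mp hi.1).1), hfilt] at h1
    exact h1
  have hprodsplit : ∀ (R : Type) [CommRing R] (F : Fin r → R) (c : Fin m),
      ∏ i ∈ Finset.univ.filter (fun i => g' i = some c), F i ^ pp g' q i =
      F (fst c).1 * ∏ φ ∈ Finset.univ.filter (fun φ => grp φ = c ∧ φ ≠ fst c),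
        F φ.1 ^ π φ := by
    intro R _ F c
    rw [← Finset.mul_prod_erase _ _ (show fst0 c ∈
      Finset.univ.filter (fun i => g' i = some c) by simpa using hfst c), hera, hppf, pow_one,
      conv_prod (fun i => q i ≠ 1) (fun i => g' i = some c ∧ i ≠ fst0 c)
      (fun i hi => ((hg'c i c).mp hi.1).1), hfilt]
  -- the blocks
  obtain ⟨N, hN⟩ : ∃ N, N + 1 = ∑ b, (a b + 1) := ⟨∑ b, (a b + 1) - 1, by omega⟩
  have hnN : n ≤ N := by omega
  let ψ : Fin (N + 1) ≃ (b : Fin B) × Fin (a b + 1) := (finCongr hN).trans finSigmaFinEquiv.symm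
  let blk : Fin (N + 1) → Fin B := fun x => (ψ x).1
  let S : Fin B → Finset ℕ := fun b =>
    (Finset.univ.filter (fun x => blk x = b)).map Fin.valEmbedding
  have hS : ∀ b x, x ∈ S b ↔ ∃ h : x < N + 1, blk ⟨x, h⟩ = b := by
    intro b x
    simp only [S, Finset.mem_map, Finset.mem_filter, Finset.mem_univ, true_and,
      Fin.valEmbedding_apply]
    constructor
    · rintro ⟨y, hy, rfl⟩
      exact ⟨y.2, hy⟩
    · rintro ⟨h, hb⟩
      exact ⟨⟨x, h⟩, hb, rfl⟩
  have hScard : ∀ b, (S b).card = a b + 1 := by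
    intro b
    rw [Finset.card_map]
    have h2 : Finset.univ.filter (fun x => blk x = b) =
        (Finset.univ : Finset (Fin (a b + 1))).map
          ⟨fun j => ψ.symm ⟨b, j⟩, fun j j' h => by
            have := ψ.symm.injective h
            simpa using this⟩ := by
      ext x
      simp only [Finset.mem_filter, Finset.mem_univ, true_and, Finset.mem_map,
        Function.Embedding.coeFn_mk]
      constructor
      · intro hx
        refine ⟨hx ▸ (ψ x).2, ?_⟩
        rw [Equiv.symm_apply_eq]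
        subst hx
        rfl
      · rintro ⟨j, rfl⟩
        simp [blk]
    rw [h2, Finset.card_map, Finset.card_univ, Fintype.card_fin]
  have hSlt : ∀ b, ∀ x ∈ S b, x < N + 1 := fun b x hx => ((hS b x).mp hx).1
  let h0 : Fin B → ℕ := fun b => (ψ.symm ⟨b, 0⟩ : Fin (N + 1)).1
  have hh0 : ∀ b, h0 b ∈ S b := by
    intro b
    rw [hS]
    refine ⟨(ψ.symm ⟨b, 0⟩ : Fin (N + 1)).2, ?_⟩
    simp [blk, h0]
  clear_value h0 S
  clear_value blk
  let ee' : Fin B → ℕ := fun b => d (ix b) / (p ^ s) ^ (a b)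
  have hde : ∀ b, a b ≠ 0 → ee' b * (p ^ s) ^ (a b) = d (ix b) := by
    intro b hb
    apply Nat.div_mul_cancel
    rw [← pow_mul]
    exact (hab b hb).2.2.1
  have hepos : ∀ b, a b ≠ 0 → 0 < ee' b := by
    intro b hb
    have h1 := (hab b hb).2.2.2
    by_contra h2
    have h3 := hde b hb
    rw [Nat.eq_zero_of_not_pos h2, zero_mul] at h3
    omega
  clear_value ee'
  obtain ⟨ω, hω⟩ := hroots (p ^ s) hQ0.ne'
  obtain ⟨ζ, hζ⟩ := hroots (p * (N + 1) + 1) (by omega)
  choose c hc using fun b : Fin B => hindep (IH N 0 (p ^ s) (p ^ s * ee' b) (S b))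
  have hEE : ∀ b, ∃ E : MvPolynomial (Fin (N + 1) ⊕ Fin r) K1,
      E.IsHomogeneous (ee' b * (p ^ s) ^ (a b)) ∧
      ∀ (Ω : Type) [Field Ω] (θ : K1 →+* Ω) (x : Fin (N + 1) ⊕ Fin r → Ω) (yy : ℕ → Ω),
          (∀ (m : ℕ) (h : m < N + 1), x (Sum.inl ⟨m, h⟩) = yy m ^ (p ^ s)) →
          (∀ m, N + 1 ≤ m → yy m = 0) →
          eval₂ θ x E = ∏ l : {b' // b' ∈ (S b).erase (h0 b)} → Fin (p ^ s),
            (x (Sum.inr (ix b)) ^ ee' b - ∑ o, θ (c b o * ω ^ (∑ b', (l b' : ℕ) *
              bd 0 (mE o) b'.1)) * ∏ m ∈ Finset.range (N + 1), yy m ^ mE o m) := by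
    intro b
    obtain ⟨E, hE1, hE2⟩ := exists_E2 (k := K1) (n := N) (β := Fin r) (J := 0) (u := N + 1)
      (e := ee' b) hQ2 (by omega) ω hω (fun _ => ix b) (ix b)
      (fun o : IH N 0 (p ^ s) (p ^ s * ee' b) (S b) => mE o) (c b)
      (fun b' : {b' // b' ∈ (S b).erase (h0 b)} => b'.1) (h0 b)
      (by have := hSlt b _ (hh0 b); omega)
      (by
        intro o b' _ hb'
        have h1 := cov_mE o b' hb'
        by_cases h2 : b' = h0 b
        · exact Or.inl h2
        · exact Or.inr ⟨⟨b', Finset.mem_erase.mpr ⟨h2, h1⟩⟩, rfl⟩)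
      (fun o => sum_mE o) (fun o j hj => pair_mE o j hj)
    refine ⟨E, ?_, ?_⟩
    · rw [Fintype.card_coe, Finset.card_erase_of_mem (hh0 b), hScard b,
        Nat.add_sub_cancel] at hE1
      exact hE1
    · intro Ω _ θ x yy h1 h2
      exact hE2 Ω θ x yy ⟨h1, h2, fun j hj => absurd hj (by omega)⟩
  choose E hE1 hE2 using hEE
  -- the special equations
  obtain ⟨c0, hc0⟩ := hindep (Σ i : Fin r, It (Fin (n + 1)) (e i))
  let F0 : Fin r → MvPolynomial (Fin (n + 1) ⊕ Fin r) K1 := fun i =>
    if h : ∃ b, a b ≠ 0 ∧ ix b = i then aeval (sgZ ζ n N r) (E h.choose)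
    else GG g' q d e c0 i
  have hF0b : ∀ b, a b ≠ 0 → F0 (ix b) = aeval (sgZ ζ n N r) (E b) := by
    intro b hb
    have h : ∃ b', a b' ≠ 0 ∧ ix b' = ix b := ⟨b, hb, rfl⟩
    simp only [F0]
    rw [dif_pos h, hixi _ _ h.choose_spec.1 hb h.choose_spec.2]
  have hF0g : ∀ i, (∀ b, a b ≠ 0 → ix b ≠ i) → F0 i = GG g' q d e c0 i := by
    intro i hi
    simp only [F0]
    rw [dif_neg]
    rintro ⟨b, hb, hb'⟩
    exact hi b hb hb'
  have hF0h : ∀ i, (F0 i).IsHomogeneous (d i) := by
    intro i
    by_cases h : ∃ b, a b ≠ 0 ∧ ix b = i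
    · obtain ⟨b, hb, rfl⟩ := h
      rw [hF0b b hb]
      have h0 := (hE1 b).aeval (sgZ ζ n N r) (fun x => sgZ_hom ζ x)
      rwa [one_mul, hde b hb] at h0
    · rw [hF0g i (fun b hb hb' => h ⟨b, hb, hb'⟩)]
      exact GG_hom g' q d e hqpos hqd (fun _ _ => rfl) _ i
  clear_value F0
  let ε := idx n r
  let f0 : Fin r → MvPolynomial (Fin (n + r + 1)) K1 := fun i => rename ε.symm (F0 i)
  obtain ⟨B1, φ1, hB1⟩ := specialise d K1 f hfh hind f0
    (fun i => IsHomogeneous.rename_isHomogeneous (hF0h i))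
  have hBI := hB1 I hfI
  have hredh := red_hom B1 (I := I) hI
  obtain ⟨C, hC⟩ := growth2 I hI hdim.le
  have : CharZero (IsLocalRing.ResidueField B1) := charZero_of_injective_ringHom φ1.injective
  have : IsAlgClosed (IsLocalRing.ResidueField B1) := h6 ℂ B1
  let cf : (Σ i : Fin r, It (Fin (n + 1)) (e i)) → IsLocalRing.ResidueField B1 :=
    fun s => φ1 (c0 s)
  have hcf : AlgebraicIndependent ℚ cf := by
    have := hc0.map' (f := φ1.toRatAlgHom) φ1.injective
    exact this
  let cfΦ : (Σ φ : Φ, It (Fin (n + 1)) (e φ.1)) → IsLocalRing.ResidueField B1 :=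
    fun s => cf ⟨s.1.1, s.2⟩
  have hcfΦ : AlgebraicIndependent ℚ cfΦ := by
    refine hcf.comp (fun s : (Σ φ : Φ, It (Fin (n + 1)) (e φ.1)) => ⟨s.1.1, s.2⟩) ?_
    rintro ⟨⟨i, hi⟩, μ⟩ ⟨⟨i', hi'⟩, μ'⟩ h
    simp only [Sigma.mk.injEq] at h
    obtain ⟨h1, h2⟩ := h
    subst h1
    rw [heq_eq_eq] at h2
    rw [h2]
  have hmem : ∀ i, MvPolynomial.map φ1 (F0 i) ∈
      (red B1 I).comap (rename ε.symm : MvPolynomial (Fin (n + 1) ⊕ Fin r)
      (IsLocalRing.ResidueField B1) →ₐ[IsLocalRing.ResidueField B1] _) := by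
    intro i
    rw [Ideal.mem_comap]
    have h2 := hBI i
    simp only [f0] at h2
    rw [MvPolynomial.map_rename] at h2
    exact h2
  have hS1 : ∀ b, 1 < (S b).card → a b ≠ 0 := by
    intro b hb
    rw [hScard] at hb
    omega
  have hdp := div_of_prime (p ^ s) (1 : ℤ) ((red B1 I).comap
    (rename ε.symm : MvPolynomial (Fin (n + 1) ⊕ Fin r)
      (IsLocalRing.ResidueField B1) →ₐ[IsLocalRing.ResidueField B1] _)) (by
      intro P hP hPp hJP hPgr
      have hGP : ∀ i, (∀ b, a b ≠ 0 → ix b ≠ i) → GG g' q d e cf i ∈ P := by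
        intro i hi
        have h1 := hJP (hmem i)
        rw [hF0g i hi, GG_map] at h1
        exact h1
      have hgix : ∀ i, q i ≠ 1 → ∀ b, a b ≠ 0 → ix b ≠ i := by
        rintro i hi b hb rfl
        exact hi (hqn _ (hab b hb).2.1)
      have hB2 : ∀ i, q i ≠ 1 → X (Sum.inr i) ^ q i -
          (if h : (Sg g' i).Nonempty then X (Sum.inr ((Sg g' i).max' h)) else 1) *
            Psi (Fin r) e cf i ∈ P := by
        intro i hi
        have h1 := hGP i (hgix i hi)
        rw [GG, if_neg hi] at h1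
        exact hPp.mem_of_pow_mem _ h1
      have hch := chain_mem g' q P (fun i => X (Sum.inr i)) (fun i => Psi (Fin r) e cf i)
        (fun i => q i ≠ 1) hg'a hB2
      obtain ⟨K, hK⟩ := h1 (IsLocalRing.ResidueField B1) p n N r B m s (p * (N + 1) + 1) hs hnN
        hBm hnm (by have := hp.two_le; nlinarith)
        (by
          intro h
          have h2 := (Nat.dvd_add_right (dvd_mul_right p (N + 1))).mp h
          exact hp.one_lt.ne' (Nat.dvd_one.mp h2))
        (φ1 ζ) (hζ.map_of_injective φ1.injective) (φ1 ω) (hω.map_of_injective φ1.injective)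
        blk Φ (fun φ => e φ.1) he grp fst hfstg π hπp hdeg cfΦ hcfΦ S hS ix h0 ee'
        (by
          intro b hb
          rw [hScard]
          exact ⟨(hab b (hS1 b hb)).1, hepos b (hS1 b hb)⟩)
        (fun b o => φ1 (c b o))
        (fun b _ => by
          have := (hc b).map' (f := φ1.toRatAlgHom) φ1.injective
          exact this)
        P hP hPp hPgr
        (by
          intro b hb
          refine ⟨MvPolynomial.map φ1 (E b), ?_, ?_⟩
          · have h1 := hJP (hmem (ix b))
            rw [hF0b b (hS1 b hb), aeval_sgZ_map] at h1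
            exact h1
          · intro Ω _ θ x yy h1 h2
            rw [eval₂_map, hE2 b Ω (θ.comp φ1) x yy h1 h2]
            refine Finset.prod_congr rfl fun l _ => ?_
            congr 1
            refine Finset.sum_congr rfl fun o _ => ?_
            rw [RingHom.comp_apply, map_mul, map_pow])
        (by
          intro c'
          have hqt : q (top c') ≠ 1 := ((hg'c _ _).mp (htop c')).1
          refine ⟨top c', fun b hb => hgix _ hqt b (hS1 b hb), ?_⟩
          have h1 := hch (top c') hqt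
          rw [htopD, htopflt, hprodsplit] at h1
          exact h1)
        (by
          intro i hi
          have hi' : ∀ b, a b ≠ 0 → ix b ≠ i := by
            intro b hb
            apply hi b
            rw [hScard]
            omega
          by_cases hq1 : q i = 1
          · left
            have h1 := hGP i hi'
            rw [GG, if_pos hq1] at h1
            exact hPp.mem_of_pow_mem _ h1
          · right
            have hconv : ∀ i', g' i' = g' i ∧ i' ≤ i → q i' ≠ 1 := fun i' h => hg'a i' i h.1 hq1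
            have hsum : ∑ φ : Φ, (if g' φ.1 = g' i ∧ φ.1 ≤ i then pp g' q φ.1 else 0) * e φ.1 =
                Dg g' q i := by
              rw [← deg_sum g' q hqpos i, conv_sum (fun i => q i ≠ 1)
                (fun i' => g' i' = g' i ∧ i' ≤ i) hconv, Finset.sum_filter]
              refine Finset.sum_congr rfl fun φ _ => ?_
              rw [ite_mul, zero_mul]
            refine ⟨fun φ => if g' φ.1 = g' i ∧ φ.1 ≤ i then pp g' q φ.1 else 0, ?_, ?_⟩
            · rw [hsum]
              exact Finset.prod_pos fun i' _ => hqpos i'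
            · rw [hsum]
              have h1 := hch i hq1
              rw [conv_prod (fun i => q i ≠ 1)
                (fun i' => g' i' = g' i ∧ i' ≤ i) hconv, Finset.prod_filter] at h1
              have h2 : ∏ φ : Φ, Psi (Fin r) (fun φ : Φ => e φ.1) cfΦ φ ^
                  (if g' φ.1 = g' i ∧ φ.1 ≤ i then pp g' q φ.1 else 0) =
                  ∏ φ : Φ, if g' φ.1 = g' i ∧ φ.1 ≤ i then
                    Psi (Fin r) e cf φ.1 ^ pp g' q φ.1 else 1 := by
                refine Finset.prod_congr rfl fun φ _ => ?_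
                split_ifs
                · rfl
                · rw [pow_zero]
              rw [h2]
              exact h1)
      exact ⟨K, fun t ht => by simpa using hK t ht⟩)
    _ (hom_equiv ε hredh) le_rfl ⟨C, fun t => by rw [hf_equiv, red_hf B1 hI]; exact hC t⟩
  obtain ⟨K, hK⟩ := hdp
  refine ⟨K, fun k hk => ?_⟩
  have h1 := hK k hk
  rw [one_mul, hf_equiv, hf_equiv, red_hf B1 hI, red_hf B1 hI] at h1
  exact h1

end Pool.Agent.Y784.CP
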