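import Pool.Agent.Y784.CP.A

set_option autoImplicit false
set_option linter.unusedSectionVars false

/-! Project CP, part 7: the statement over `ℂ`, prime powers -/

open MvPolynomial

namespace Pool.Agent.Y784.CP

open Pool.Agent.TH922.KC hiding Psi
open Pool.Agent.Z894.CP

lemma num {n p m : ℕ} (hn : 0 < n) (hp : 2 ≤ p) (h : (n - 1) * p + 1 ≤ m * (p - 1)) :
    n + 1 ≤ m + 1 ∧ n ≤ (m + 2 - (n + 1)) * (p - 1) := by
  obtain ⟨n, rfl⟩ : ∃ n', n = n' + 1 := ⟨n - 1, by omega⟩
  obtain ⟨p, rfl⟩ : ∃ p', p = p' + 1 := ⟨p - 1, by omega⟩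
  simp only [Nat.add_sub_cancel] at h ⊢
  have hnm : n < m := by
    by_contra hc
    push Not at hc
    have := Nat.mul_le_mul_right p hc
    nlinarith
  obtain ⟨t, rfl⟩ : ∃ t, m = n + 1 + t := ⟨m - (n + 1), by omega⟩
  refine ⟨by omega, ?_⟩
  have e1 : n + 1 + t + 2 - (n + 1 + 1) = t + 1 := by omega
  rw [e1]
  nlinarith

lemma algInd {p : ℕ} [Fact p.Prime] {ι κ : Type} [Field κ] [CharP κ p] [Algebra (ZMod p) κ]
    (φ1 : MvPolynomial ι (ZMod p) →+* κ) (hφ : Function.Injective φ1) :
    AlgebraicIndependent (ZMod p) (fun s => φ1 (X s)) := by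
  have h1 : (aeval (fun s => φ1 (X s)) : MvPolynomial ι (ZMod p) →ₐ[ZMod p] κ).toRingHom = φ1 := by
    apply MvPolynomial.ringHom_ext
    · intro c
      have h2 : ((aeval (fun s => φ1 (X s)) : MvPolynomial ι (ZMod p) →ₐ[ZMod p] κ).toRingHom.comp
          (C : ZMod p →+* MvPolynomial ι (ZMod p))) = φ1.comp C := Subsingleton.elim _ _
      exact DFunLike.congr_fun h2 c
    · intro x
      exact aeval_X _ _
  have h3 : ⇑(aeval (fun s => φ1 (X s)) : MvPolynomial ι (ZMod p) →ₐ[ZMod p] κ) = ⇑φ1 := by
    funext y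
    exact DFunLike.congr_fun h1 y
  change Function.Injective _
  rw [h3]
  exact hφ

theorem main_holds (h4 : PKappa) (h5 : PSpec) (h6 : PAlg) : PMain := by
  classical
  intro n r hn d
  obtain ⟨K1, hcount, hroots, hindep⟩ := exists_countable_field
  set σ := (Σ i : Fin r, {μ : Fin (n + r + 1) →₀ ℕ // μ.degree = d i}) with hσ
  have hcp : Countable (MvPolynomial σ K1) := by
    rw [← Cardinal.mk_le_aleph0_iff]
    refine MvPolynomial.cardinalMk_le_max.trans ?_
    simp only [max_le_iff, le_refl, and_true]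
    exact ⟨Cardinal.mk_le_aleph0_iff.mpr hcount, Cardinal.mk_le_aleph0_iff.mpr inferInstance⟩
  have hne : Nonempty {p : MvPolynomial σ K1 // p ≠ 0} := ⟨⟨1, one_ne_zero⟩⟩
  obtain ⟨en, hen⟩ := exists_surjective_nat {p : MvPolynomial σ K1 // p ≠ 0}
  refine ⟨fun j => MvPolynomial.map K1.subtype (en j).1, fun j => ?_, ?_⟩
  · have h1 := (en j).2
    intro h
    exact h1 ((map_eq_zero_iff _ (MvPolynomial.map_injective _ K1.subtype.injective)).mp h)
  intro f hfh hbad I hI hIp hdim hfI p s m hp hs hnum g hg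
  haveI : Fact p.Prime := ⟨hp⟩
  have hind : AlgebraicIndependent K1 (fun x : σ => coeff x.2.1 (f x.1)) := by
    rw [algebraicIndependent_iff]
    intro p hp
    by_contra hp0
    obtain ⟨l, hl⟩ := hen ⟨p, hp0⟩
    apply hbad l
    change MvPolynomial.eval _ (MvPolynomial.map K1.subtype (en l).1) = 0
    rw [hl, MvPolynomial.eval_map]
    exact hp
  have hQ0 : 0 < p ^ s := pow_pos hp.pos _
  have hQ2 : 2 ≤ p ^ s := hp.two_le.trans (Nat.le_self_pow hs p)
  -- the divisors
  choose qq hqq1 hqq2 using fun c : Fin m => exists_factor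
    (Finset.univ.filter (fun i => g i = c)) d (p ^ s) (hg c)
  let q : Fin r → ℕ := fun i => qq (g i) i
  have hqd : ∀ i, q i ∣ d i := fun i => hqq1 (g i) i (by simp)
  have hqprod : ∀ c, ∏ i ∈ Finset.univ.filter (fun i => g i = c), q i = p ^ s := by
    intro c
    rw [← hqq2 c]
    refine Finset.prod_congr rfl fun i hi => ?_
    simp only [Finset.mem_filter, Finset.mem_univ, true_and] at hi
    simp only [q, hi]
  have hqdvd : ∀ i, q i ∣ p ^ s := by
    intro i
    rw [← hqprod (g i)]
    exact Finset.dvd_prod_of_mem q (by simp)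
  have hqpos : ∀ i, 0 < q i := fun i => Nat.pos_of_dvd_of_pos (hqdvd i) hQ0
  have hqp : ∀ i, q i ≠ 1 → p ∣ q i := by
    intro i h
    obtain ⟨t, ht, hqt⟩ := (Nat.dvd_prime_pow hp).mp (hqdvd i)
    rw [hqt]
    apply dvd_pow_self
    rintro rfl
    rw [pow_zero] at hqt
    exact h hqt
  clear_value q
  let g' : Fin r → Option (Fin m) := fun i => if q i = 1 then none else some (g i)
  have hg'c : ∀ i c, g' i = some c ↔ q i ≠ 1 ∧ g i = c := by
    intro i c
    by_cases h : q i = 1
    · simp [g', h]
    · simp [g', h]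
  have hg'1 : ∀ i, q i ≠ 1 → g' i = some (g i) := fun i h => (hg'c i _).mpr ⟨h, rfl⟩
  have hg'a : ∀ i i', g' i = g' i' → q i' ≠ 1 → q i ≠ 1 := by
    intro i i' h h1
    rw [hg'1 i' h1] at h
    exact ((hg'c i _).mp h).1
  clear_value g'
  have hg'prod : ∀ c, ∏ i ∈ Finset.univ.filter (fun i => g' i = some c), q i = p ^ s := by
    intro c
    rw [← hqprod c]
    apply Finset.prod_subset
    · intro i hi
      simp only [Finset.mem_filter, Finset.mem_univ, true_and] at hi ⊢
      exact ((hg'c i c).mp hi).2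
    · intro i hi hi'
      simp only [Finset.mem_filter, Finset.mem_univ, true_and] at hi hi'
      by_contra hne
      exact hi' ((hg'c i c).mpr ⟨hne, hi⟩)
  have hact : ∀ c, (Finset.univ.filter (fun i => g' i = some c)).Nonempty := by
    intro c
    by_contra h
    rw [Finset.not_nonempty_iff_eq_empty] at h
    have := hg'prod c
    rw [h, Finset.prod_empty] at this
    omega
  let fst : Fin m → Fin r := fun c => (Finset.univ.filter (fun i => g' i = some c)).min' (hact c)
  have hfst : ∀ c, g' (fst c) = some c := by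
    intro c
    have := (Finset.univ.filter (fun i => g' i = some c)).min'_mem (hact c)
    simpa only [Finset.mem_filter, Finset.mem_univ, true_and] using this
  have hfstle : ∀ c i, g' i = some c → fst c ≤ i := by
    intro c i hi
    exact Finset.min'_le _ _ (by simpa using hi)
  clear_value fst
  have hfstS : ∀ c, ¬ (Sg g' (fst c)).Nonempty := by
    rintro c ⟨i, hi⟩
    simp only [Sg, Finset.mem_filter, Finset.mem_univ, true_and] at hi
    have := hfstle c i (hi.1.trans (hfst c))
    exact absurd hi.2 (not_lt.mpr this)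
  have hSne : ∀ i c, g' i = some c → i ≠ fst c → (Sg g' i).Nonempty := by
    intro i c hi hne
    refine ⟨fst c, ?_⟩
    simp only [Sg, Finset.mem_filter, Finset.mem_univ, true_and]
    exact ⟨(hfst c).trans hi.symm, lt_of_le_of_ne (hfstle c i hi) (Ne.symm hne)⟩
  let top : Fin m → Fin r := fun c => (Finset.univ.filter (fun i => g' i = some c)).max' (hact c)
  have htop : ∀ c, g' (top c) = some c := by
    intro c
    have := (Finset.univ.filter (fun i => g' i = some c)).max'_mem (hact c)
    simpa only [Finset.mem_filter, Finset.mem_univ, true_and] using this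
  have htople : ∀ c i, g' i = some c → i ≤ top c := by
    intro c i hi
    exact Finset.le_max' _ _ (by simpa using hi)
  clear_value top
  have htopflt : ∀ c, Finset.univ.filter (fun i' => g' i' = g' (top c) ∧ i' ≤ top c) =
      Finset.univ.filter (fun i => g' i = some c) := by
    intro c
    ext i'
    simp only [Finset.mem_filter, Finset.mem_univ, true_and, htop c]
    exact ⟨fun h => h.1, fun h => ⟨h, htople c i' h⟩⟩
  have htopD : ∀ c, Dg g' q (top c) = p ^ s := by
    intro c
    rw [Dg, htopflt, hg'prod]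
  let e : Fin r → ℕ := fun i => if q i = 1 then p - 1 else ee g' q i
  have he1 : ∀ i, q i ≠ 1 → e i = ee g' q i := by
    intro i h
    simp only [e, if_neg h]
  have he : ∀ i, p - 1 ≤ e i := by
    intro i
    by_cases h : q i = 1
    · simp only [e, if_pos h]; exact le_rfl
    · rw [he1 i h, ee]
      have := Nat.le_of_dvd (hqpos i) (hqp i h)
      split_ifs <;> omega
  clear_value e
  let π : Fin r → ℕ := fun i => if q i = 1 then 0 else pp g' q i
  have hπ0 : ∀ i, q i = 1 → π i = 0 := fun i h => by simp only [π, if_pos h]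
  have hπ1 : ∀ i, q i ≠ 1 → π i = pp g' q i := fun i h => by simp only [π, if_neg h]
  clear_value π
  have hπp : ∀ φ, φ ≠ fst (g φ) → p ∣ π φ := by
    intro φ hφ
    by_cases h : q φ = 1
    · rw [hπ0 φ h]; exact dvd_zero _
    · have h1 := hSne φ (g φ) (hg'1 φ h) hφ
      rw [hπ1 φ h, pp, dif_pos h1]
      have h2 := prev_mem g' h1
      have h3 : q ((Sg g' φ).max' h1) ≠ 1 := hg'a _ φ h2.1 h
      exact (hqp _ h3).trans (self_dvd g' q _)
  have hsplit : ∀ c, Finset.univ.filter (fun i => g' i = some c) =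
      insert (fst c) ((Finset.univ.filter (fun φ => g φ = c ∧ φ ≠ fst c)).filter
        (fun φ => q φ ≠ 1)) := by
    intro c
    ext i
    simp only [Finset.mem_filter, Finset.mem_univ, true_and, Finset.mem_insert]
    constructor
    · intro h
      by_cases h1 : i = fst c
      · exact Or.inl h1
      · have h2 := (hg'c i c).mp h
        exact Or.inr ⟨⟨h2.2, h1⟩, h2.1⟩
    · rintro (h | h)
      · rw [h]; exact hfst c
      · exact (hg'c i c).mpr ⟨h.2, h.1.1⟩
  have hnot : ∀ c, fst c ∉ (Finset.univ.filter (fun φ => g φ = c ∧ φ ≠ fst c)).filter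
        (fun φ => q φ ≠ 1) := by
    intro c
    simp
  have hppf : ∀ c, pp g' q (fst c) = 1 := fun c => by rw [pp, dif_neg (hfstS c)]
  have hdeg : ∀ c, e (fst c) + ∑ φ ∈ Finset.univ.filter (fun φ => g φ = c ∧ φ ≠ fst c),
      π φ * e φ = p ^ s := by
    intro c
    have h1 := deg_sum g' q hqpos (top c)
    rw [htopD, htopflt, hsplit, Finset.sum_insert (hnot c), hppf, one_mul] at h1
    rw [← h1, he1 _ ((hg'c _ _).mp (hfst c)).1]
    congr 1
    rw [← Finset.sum_filter_of_ne (p := fun φ => q φ ≠ 1)]
    · refine Finset.sum_congr rfl fun φ hφ => ?_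
      have h2 := (Finset.mem_filter.mp hφ).2
      rw [hπ1 φ h2, he1 φ h2]
    · intro φ _ h2 h3
      apply h2
      rw [hπ0 φ h3, zero_mul]
  have hprodsplit : ∀ (R : Type) [CommRing R] (F : Fin r → R) (c : Fin m),
      ∏ i ∈ Finset.univ.filter (fun i => g' i = some c), F i ^ pp g' q i =
      F (fst c) * ∏ φ ∈ Finset.univ.filter (fun φ => g φ = c ∧ φ ≠ fst c), F φ ^ π φ := by
    intro R _ F c
    rw [hsplit, Finset.prod_insert (hnot c), hppf, pow_one]
    congr 1
    rw [← Finset.prod_filter_of_ne (s := Finset.univ.filter (fun φ => g φ = c ∧ φ ≠ fst c))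
      (p := fun φ => q φ ≠ 1) (f := fun φ => F φ ^ π φ)]
    · refine Finset.prod_congr rfl fun φ hφ => ?_
      have h2 := (Finset.mem_filter.mp hφ).2
      rw [hπ1 φ h2]
    · intro φ _ h2 h3
      apply h2
      rw [hπ0 φ h3, pow_zero]
  let ι := (Σ i : Fin r, It (Fin (n + 1)) (e i))
  obtain ⟨c0, hc0⟩ := hindep ι
  let ε := idx n r
  let f0 : Fin r → MvPolynomial (Fin (n + r + 1)) (MvPolynomial ι (ZMod p)) := fun i =>
    rename ε.symm (GG g' q d e (X : ι → MvPolynomial ι (ZMod p)) i)
  obtain ⟨B, φ1, hφ1, hB⟩ := h5 (Fin (n + r + 1)) r d K1 f hfh hind p ι c0 hc0 f0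
    (fun i => IsHomogeneous.rename_isHomogeneous (GG_hom g' q d e hqpos hqd he1 _ i))
  have hBI := hB I hfI
  have hredh := red_hom B (I := I) hI
  obtain ⟨C, hC⟩ := growth2 I hI hdim.le
  haveI : CharP (IsLocalRing.ResidueField B) p := charP_of_injective_ringHom hφ1 p
  haveI : IsAlgClosed (IsLocalRing.ResidueField B) := h6 ℂ B
  letI : Algebra (ZMod p) (IsLocalRing.ResidueField B) :=
    ZMod.algebra (IsLocalRing.ResidueField B) p
  let cf : ι → IsLocalRing.ResidueField B := fun s => φ1 (X s)
  have hcf : AlgebraicIndependent (ZMod p) cf := algInd φ1 hφ1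
  have hmem : ∀ i, GG g' q d e cf i ∈
      (red B I).comap (rename ε.symm : MvPolynomial (Fin (n + 1) ⊕ Fin r)
      (IsLocalRing.ResidueField B) →ₐ[IsLocalRing.ResidueField B] _) := by
    intro i
    rw [Ideal.mem_comap]
    have h2 := hBI i
    simp only [f0] at h2
    rw [MvPolynomial.map_rename, GG_map] at h2
    exact h2
  let L0 : Fin (n + 1) → Fin (n + 1) → ZMod p := fun a => Pi.single a 1
  have hL0 : ∀ S : Finset (Fin (n + 1)), n + 1 ≤ S.card →
      Submodule.span (ZMod p) (L0 '' S) = ⊤ := by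
    intro S hS
    have h1 : S = Finset.univ := by
      apply Finset.eq_univ_of_card
      rw [Fintype.card_fin]
      exact le_antisymm (by simpa using Finset.card_le_univ S) hS
    rw [h1, Finset.coe_univ, Set.image_univ]
    have h2 := (Pi.basisFun (ZMod p) (Fin (n + 1))).span_eq
    have h3 : (⇑(Pi.basisFun (ZMod p) (Fin (n + 1)))) = L0 := by
      funext a
      simp [L0, Pi.basisFun_apply]
    rwa [h3] at h2
  have hnn := num hn hp.two_le hnum
  have hdp := div_of_prime (p ^ s) (1 : ℤ) ((red B I).comap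
    (rename ε.symm : MvPolynomial (Fin (n + 1) ⊕ Fin r)
      (IsLocalRing.ResidueField B) →ₐ[IsLocalRing.ResidueField B] _)) (by
      intro P hP hPp hJP hPgr
      have hB1 : ∀ i, q i ≠ 1 → X (Sum.inr i) ^ q i -
          (if h : (Sg g' i).Nonempty then X (Sum.inr ((Sg g' i).max' h)) else 1) *
            Psi (Fin r) e cf i ∈ P := by
        intro i hi
        have h1 := hJP (hmem i)
        rw [GG, if_neg hi] at h1
        exact hPp.mem_of_pow_mem _ h1
      have hch := chain_mem g' q P (fun i => X (Sum.inr i)) (fun i => Psi (Fin r) e cf i)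
        (fun i => q i ≠ 1) hg'a hB1
      obtain ⟨K, hK⟩ := h4 (ZMod p) (IsLocalRing.ResidueField B) p n n (n + 1) m s hs le_rfl
        hnn.1 hnn.2 L0 hL0 id (Fin r) (Fin r) e he g fst
        (fun c => ((hg'c _ _).mp (hfst c)).2) π hπp hdeg cf hcf P hP hPp hPgr
        (fun a b hab h => absurd h hab)
        (by
          intro c
          refine ⟨top c, ?_⟩
          have h1 := hch (top c) ((hg'c _ _).mp (htop c)).1
          rw [htopD, htopflt, hprodsplit] at h1
          exact h1)
        (by
          intro i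
          by_cases hi : q i = 1
          · refine ⟨1, 0, one_pos, isHomogeneous_zero _ _ _, ?_⟩
            rw [map_zero, sub_zero, pow_one]
            have h1 := hJP (hmem i)
            rw [GG, if_pos hi] at h1
            exact hPp.mem_of_pow_mem _ h1
          · refine ⟨Dg g' q i, ∏ i' ∈ Finset.univ.filter (fun i' => g' i' = g' i ∧ i' ≤ i),
              Psi0 e cf i' ^ pp g' q i', ?_, ?_, ?_⟩
            · exact Finset.prod_pos fun i' _ => hqpos i'
            · rw [← deg_sum g' q hqpos i]
              refine IsHomogeneous.prod _ _ _ fun i' hi' => ?_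
              have h2 : q i' ≠ 1 := hg'a i' i (Finset.mem_filter.mp hi').2.1 hi
              have h3 := (Psi0_hom e cf i').pow (pp g' q i')
              rw [he1 i' h2, mul_comm] at h3
              exact h3
            · have h2 := hch i hi
              simp only [Psi_eq] at h2
              rw [map_prod]
              simp only [map_pow]
              exact h2)
      exact ⟨K, fun t ht => by simpa using hK t ht⟩)
    _ (hom_equiv ε hredh) le_rfl ⟨C, fun t => by rw [hf_equiv, red_hf B hI]; exact hC t⟩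
  obtain ⟨K, hK⟩ := hdp
  refine ⟨K, fun k hk => ?_⟩
  have h1 := hK k hk
  rw [one_mul, hf_equiv, hf_equiv, red_hf B hI, red_hf B hI] at h1
  exact h1

end Pool.Agent.Y784.CP
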