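import Pool.Agent.Z894.CP.Stm

set_option autoImplicit false
set_option linter.unusedSectionVars false

/-! Project CP, part 7: chains of divisors -/

open MvPolynomial

namespace Pool.Agent.Y784.CP

open Pool.Agent.TH922.KC hiding Psi
open Pool.Agent.Z894.CP

section chain

variable {r : ℕ} {Γ : Type} [DecidableEq Γ] (g : Fin r → Γ) (q : Fin r → ℕ)

lemma flt_first {i : Fin r} (h : ¬ (Sg g i).Nonempty) :
    Finset.univ.filter (fun i' => g i' = g i ∧ i' ≤ i) = {i} := by
  ext i'
  simp only [Finset.mem_filter, Finset.mem_univ, true_and, Finset.mem_singleton]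
  constructor
  · rintro ⟨h1, h2⟩
    by_contra hne
    exact h ⟨i', by simp only [Sg, Finset.mem_filter, Finset.mem_univ, true_and];
                    exact ⟨h1, lt_of_le_of_ne h2 hne⟩⟩
  · rintro rfl
    exact ⟨rfl, le_rfl⟩

lemma prev_mem {i : Fin r} (h : (Sg g i).Nonempty) :
    g ((Sg g i).max' h) = g i ∧ (Sg g i).max' h < i := by
  have hp := (Sg g i).max'_mem h
  simpa only [Sg, Finset.mem_filter, Finset.mem_univ, true_and] using hp

lemma flt_next {i : Fin r} (h : (Sg g i).Nonempty) :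
    Finset.univ.filter (fun i' => g i' = g i ∧ i' ≤ i)
      = insert i (Finset.univ.filter (fun i' => g i' = g ((Sg g i).max' h) ∧
        i' ≤ (Sg g i).max' h)) := by
  have hp' := prev_mem g h
  ext i'
  simp only [Finset.mem_filter, Finset.mem_univ, true_and, Finset.mem_insert]
  constructor
  · rintro ⟨h1, h2⟩
    rcases eq_or_lt_of_le h2 with h3 | h3
    · exact Or.inl h3
    · refine Or.inr ⟨by rw [h1, hp'.1], ?_⟩
      apply Finset.le_max'
      simp only [Sg, Finset.mem_filter, Finset.mem_univ, true_and]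
      exact ⟨h1, h3⟩
  · rintro (rfl | ⟨h1, h2⟩)
    · exact ⟨rfl, le_rfl⟩
    · exact ⟨by rw [h1, hp'.1], h2.trans hp'.2.le⟩

lemma flt_not {i : Fin r} (h : (Sg g i).Nonempty) :
    i ∉ Finset.univ.filter (fun i' => g i' = g ((Sg g i).max' h) ∧
        i' ≤ (Sg g i).max' h) := by
  simp only [Finset.mem_filter, Finset.mem_univ, true_and, not_and, not_le]
  intro _
  exact (prev_mem g h).2

/-- the product of the divisors before `i` -/
noncomputable def pp (i : Fin r) : ℕ :=
  if h : (Sg g i).Nonempty then Dg g q ((Sg g i).max' h) else 1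

/-- degrees of the forms -/
noncomputable def ee (i : Fin r) : ℕ := if (Sg g i).Nonempty then q i - 1 else q i

lemma deg_sum (hq : ∀ i, 0 < q i) (i : Fin r) :
    ∑ i' ∈ Finset.univ.filter (fun i' => g i' = g i ∧ i' ≤ i), pp g q i' * ee g q i'
      = Dg g q i := by
  induction i using WellFoundedLT.induction with
  | ind i ih =>
    by_cases h : (Sg g i).Nonempty
    · rw [flt_next g h, Finset.sum_insert (flt_not g h), ih _ (prev_mem g h).2, Dg_next g q h]
      rw [pp, dif_pos h, ee, if_pos h]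
      obtain ⟨u, hu⟩ := Nat.exists_eq_succ_of_ne_zero (hq i).ne'
      rw [hu, Nat.succ_eq_add_one, Nat.add_sub_cancel]
      ring
    · rw [flt_first g h, Finset.sum_singleton, Dg_first g q h, pp, dif_neg h, ee, if_neg h,
        one_mul]

lemma chain_mem {R : Type*} [CommRing R] (P : Ideal R) (x F : Fin r → R) (act : Fin r → Prop)
    (hact : ∀ i i', g i = g i' → act i' → act i)
    (hP : ∀ i, act i → x i ^ q i -
      (if h : (Sg g i).Nonempty then x ((Sg g i).max' h) else 1) * F i ∈ P) (i : Fin r)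
    (hi : act i) :
    x i ^ Dg g q i - ∏ i' ∈ Finset.univ.filter (fun i' => g i' = g i ∧ i' ≤ i),
      F i' ^ pp g q i' ∈ P := by
  induction i using WellFoundedLT.induction with
  | ind i ih =>
    have hB := hP i hi
    by_cases h : (Sg g i).Nonempty
    · have hp' := prev_mem g h
      have ih' := ih _ hp'.2 (hact _ i hp'.1 hi)
      rw [flt_next g h, Finset.prod_insert (flt_not g h), Dg_next g q h]
      have e1 : pp g q i = Dg g q ((Sg g i).max' h) := by rw [pp, dif_pos h]
      rw [e1]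
      rw [dif_pos h] at hB
      rw [← Ideal.Quotient.eq_zero_iff_mem] at ih' hB ⊢
      simp only [map_sub, map_mul, map_pow, sub_eq_zero] at ih' hB ⊢
      rw [pow_mul, hB, mul_pow, ih', mul_comm]
    · rw [flt_first g h, Finset.prod_singleton, Dg_first g q h]
      have e1 : pp g q i = 1 := by rw [pp, dif_neg h]
      rw [e1, pow_one]
      rw [dif_neg h, one_mul] at hB
      exact hB

lemma self_dvd (i : Fin r) : q i ∣ Dg g q i :=
  Finset.dvd_prod_of_mem q (by simp)

end chain

section psi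

variable {κ : Type} [CommRing κ] {n : ℕ} {Φ : Type}

/-- the form, without the graph variables -/
noncomputable def Psi0 (e : Φ → ℕ) (cf : (Σ φ : Φ, It (Fin (n + 1)) (e φ)) → κ) (φ : Φ) :
    MvPolynomial (Fin (n + 1)) κ :=
  ∑ μ : It (Fin (n + 1)) (e φ), C (cf ⟨φ, μ⟩) * ∏ j, X j ^ (μ.1 j)

lemma Psi_eq (β : Type) (e : Φ → ℕ) (cf : (Σ φ : Φ, It (Fin (n + 1)) (e φ)) → κ) (φ : Φ) :
    Psi β e cf φ = rename Sum.inl (Psi0 e cf φ) := by
  unfold Psi Psi0
  simp only [map_sum, map_mul, map_prod, map_pow, rename_X, rename_C]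

lemma Psi0_hom (e : Φ → ℕ) (cf : (Σ φ : Φ, It (Fin (n + 1)) (e φ)) → κ) (φ : Φ) :
    (Psi0 e cf φ).IsHomogeneous (e φ) := by
  unfold Psi0
  refine IsHomogeneous.sum _ _ _ fun μ _ => ?_
  have h1 : (∏ j, (X j : MvPolynomial (Fin (n + 1)) κ) ^ (μ.1 j)).IsHomogeneous
      (∑ j, μ.1 j) := by
    refine IsHomogeneous.prod _ _ _ fun j _ => ?_
    exact isHomogeneous_X_pow _ _
  have h2 : ∑ j, μ.1 j = e φ := by
    have h3 := μ.2
    rwa [Finsupp.degree_eq_sum] at h3
  rw [h2] at h1
  exact h1.C_mul _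

lemma Psi_map {κ' : Type} [CommRing κ'] (f : κ →+* κ') (β : Type) (e : Φ → ℕ)
    (cf : (Σ φ : Φ, It (Fin (n + 1)) (e φ)) → κ) (φ : Φ) :
    MvPolynomial.map f (Psi β e cf φ) = Psi β e (fun s => f (cf s)) φ := by
  unfold Psi
  simp only [map_sum, map_mul, map_prod, map_pow, map_X, map_C]

lemma Psi_hom (β : Type) (e : Φ → ℕ) (cf : (Σ φ : Φ, It (Fin (n + 1)) (e φ)) → κ) (φ : Φ) :
    (Psi β e cf φ).IsHomogeneous (e φ) := by
  rw [Psi_eq]
  exact (Psi0_hom e cf φ).rename_isHomogeneous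

end psi

/-- the special equations -/
noncomputable def GG {R : Type} [CommRing R] {n r : ℕ} {Γ : Type} [DecidableEq Γ]
    (g : Fin r → Γ) (q d e : Fin r → ℕ)
    (cf : (Σ φ : Fin r, It (Fin (n + 1)) (e φ)) → R) (i : Fin r) :
    MvPolynomial (Fin (n + 1) ⊕ Fin r) R :=
  if q i = 1 then X (Sum.inr i) ^ d i
  else (X (Sum.inr i) ^ q i -
    (if h : (Sg g i).Nonempty then X (Sum.inr ((Sg g i).max' h)) else 1) *
      Psi (Fin r) e cf i) ^ (d i / q i)

lemma GG_hom {R : Type} [CommRing R] {n r : ℕ} {Γ : Type} [DecidableEq Γ]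
    (g : Fin r → Γ) (q d e : Fin r → ℕ) (hq : ∀ i, 0 < q i) (hqd : ∀ i, q i ∣ d i)
    (he : ∀ i, q i ≠ 1 → e i = ee g q i)
    (cf : (Σ φ : Fin r, It (Fin (n + 1)) (e φ)) → R) (i : Fin r) :
    (GG g q d e cf i).IsHomogeneous (d i) := by
  unfold GG
  split_ifs with h1 h2
  · exact isHomogeneous_X_pow _ _
  · have h3 : ((X (Sum.inr i) : MvPolynomial (Fin (n + 1) ⊕ Fin r) R) ^ q i -
      (X (Sum.inr ((Sg g i).max' h2))) * Psi (Fin r) e cf i).IsHomogeneous (q i) := by
      refine (isHomogeneous_X_pow _ _).sub ?_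
      have h4 := (isHomogeneous_X R (Sum.inr ((Sg g i).max' h2) : Fin (n + 1) ⊕ Fin r)).mul
        (Psi_hom (Fin r) e cf i)
      rw [he i h1, ee, if_pos h2] at h4
      have h5 := hq i
      rwa [show 1 + (q i - 1) = q i by omega] at h4
    have h6 := h3.pow (d i / q i)
    rwa [Nat.mul_div_cancel' (hqd i)] at h6
  · have h3 : ((X (Sum.inr i) : MvPolynomial (Fin (n + 1) ⊕ Fin r) R) ^ q i -
      1 * Psi (Fin r) e cf i).IsHomogeneous (q i) := by
      refine (isHomogeneous_X_pow _ _).sub ?_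
      have h4 := Psi_hom (Fin r) e cf i
      rw [he i h1, ee, if_neg h2] at h4
      rwa [one_mul]
    have h6 := h3.pow (d i / q i)
    rwa [Nat.mul_div_cancel' (hqd i)] at h6

lemma GG_map {R R' : Type} [CommRing R] [CommRing R'] (f : R →+* R') {n r : ℕ} {Γ : Type}
    [DecidableEq Γ] (g : Fin r → Γ) (q d e : Fin r → ℕ)
    (cf : (Σ φ : Fin r, It (Fin (n + 1)) (e φ)) → R) (i : Fin r) :
    MvPolynomial.map f (GG g q d e cf i) = GG g q d e (fun s => f (cf s)) i := by
  unfold GG
  split_ifs with h1 h2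
  · rw [map_pow, map_X]
  · simp only [map_pow, map_sub, map_mul, map_X, Psi_map]
  · simp only [map_pow, map_sub, map_mul, map_X, Psi_map, map_one]

end Pool.Agent.Y784.CP
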